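import Mathlib

/-!
# Irreducible coset spaces of groups without minimal closed normal subgroups (MP_db1407_al)

`L = ℚ₂ ⋊ 2^ℤ`, `U = ℤ₂`, `X = L/U`, `G = F(X) ⋊ L` with `F(X)` discrete.
-/

namespace Pool.Agent.Results.MP_db1407_al.NoMinimalNormal

/-! ## The notions of the question -/

/-- `G/H` is an irreducible coset space: `H` is maximal among the proper closed subgroups. -/
def IrreducibleCosetSpace {G : Type*} [Group G] [TopologicalSpace G] (H : Subgroup G) : Prop :=
  IsClosed (H : Set G) ∧ H ≠ ⊤ ∧ ∀ K : Subgroup G, IsClosed (K : Set G) → H < K → K = ⊤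

/-- `G/H` is faithful: the intersection of the conjugates of `H` is trivial. -/
def FaithfulCosetSpace {G : Type*} [Group G] (H : Subgroup G) : Prop :=
  ∀ x : G, (∀ g : G, g⁻¹ * x * g ∈ H) → x = 1

/-- some compact subset generates `G` as a group -/
def CompactlyGenerated (G : Type*) [Group G] [TopologicalSpace G] : Prop :=
  ∃ C : Set G, IsCompact C ∧ Subgroup.closure C = ⊤

/-- `M` is a minimal nontrivial closed normal subgroup of `G`, i.e. `M ∈ 𝓜_G`. -/
def MinimalClosedNormal {G : Type*} [Group G] [TopologicalSpace G] (M : Subgroup G) : Prop :=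
  M.Normal ∧ IsClosed (M : Set G) ∧ M ≠ ⊥ ∧
    ∀ N : Subgroup G, N.Normal → IsClosed (N : Set G) → N ≤ M → N = ⊥ ∨ N = M

/-! ## Ping-pong in free groups -/

section PP

open FreeGroup

variable {X : Type*} [DecidableEq X]

/-- `w` maps everything outside `startsWith s` into `startsWith f`, and `w⁻¹` everything outside
`startsWith f` into `startsWith s`. -/
def PP (w : FreeGroup X) (f s : X × Bool) : Prop :=
  (∀ b, b ∉ startsWith s → w * b ∈ startsWith f) ∧
    (∀ b, b ∉ startsWith f → w⁻¹ * b ∈ startsWith s)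

lemma sw_unique {b : FreeGroup X} {s t : X × Bool} (h : b ∈ startsWith s)
    (h' : b ∈ startsWith t) : s = t := by
  by_contra hne
  exact Set.disjoint_left.1 (startsWith.disjoint_iff_ne.2 hne) h h'

lemma sw_exists {b : FreeGroup X} (hb : b ≠ 1) : ∃ s, b ∈ startsWith s := by
  have : b.toWord ≠ [] := fun h => hb (toWord_eq_nil_iff.1 h)
  obtain ⟨x, L, hL⟩ := List.exists_cons_of_ne_nil this
  exact ⟨x, by simp [startsWith, hL]⟩

lemma sw_ne_one {b : FreeGroup X} {s : X × Bool} (h : b ∈ startsWith s) : b ≠ 1 :=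
  startsWith.ne_one _ h

lemma one_notMem_sw (s : X × Bool) : (1 : FreeGroup X) ∉ startsWith s :=
  fun h => startsWith.ne_one _ h rfl

lemma PP.comp {w w' : FreeGroup X} {f s f' s' : X × Bool} (h : PP w f s) (h' : PP w' f' s')
    (hne : f' ≠ s) : PP (w * w') f s' := by
  refine ⟨fun b hb => ?_, fun b hb => ?_⟩
  · rw [mul_assoc]
    exact h.1 _ (fun hh => hne (sw_unique (h'.1 b hb) hh))
  · rw [mul_inv_rev, mul_assoc]
    exact h'.2 _ (fun hh => hne (sw_unique hh (h.2 b hb)))

lemma PP.of_pos (x : X) : PP (of x) (x, true) (x, false) := by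
  refine ⟨fun b hb => startsWith_mk_mul (w := (x, true)) b hb, fun b hb => ?_⟩
  have : (of x)⁻¹ = mk [(x, false)] := by simp [of, inv_mk, invRev]
  rw [this]
  exact startsWith_mk_mul (w := (x, false)) b hb

lemma PP.of_neg (x : X) : PP (of x)⁻¹ (x, false) (x, true) := by
  have h := PP.of_pos x
  refine ⟨h.2, fun b hb => ?_⟩
  rw [inv_inv]
  exact h.1 b hb

lemma PP.letter (s : X × Bool) : PP (mk [s]) s (s.1, !s.2) := by
  obtain ⟨x, b⟩ := s
  cases b
  · have : (of x)⁻¹ = mk [(x, false)] := by simp [of, inv_mk, invRev]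
    rw [← this]
    exact PP.of_neg x
  · exact PP.of_pos x

lemma PP.word (w : FreeGroup X) (hw : w ≠ 1) : ∃ f s, PP w f s := by
  have key : ∀ (L : List (X × Bool)) (a : X × Bool), IsReduced (a :: L) →
      ∃ s, PP (mk (a :: L)) a s := by
    intro L
    induction L with
    | nil => intro a _; exact ⟨_, PP.letter a⟩
    | cons b L ih =>
      intro a hred
      rw [isReduced_cons_cons] at hred
      obtain ⟨s, hs⟩ := ih b hred.2
      refine ⟨s, ?_⟩
      have : mk (a :: b :: L) = mk [a] * mk (b :: L) := by rw [mul_mk]; rfl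
      rw [this]
      refine (PP.letter a).comp hs ?_
      intro hb
      have h1 := hred.1 (by rw [hb])
      rw [hb] at h1
      simp at h1
  have : w.toWord ≠ [] := fun h => hw (toWord_eq_nil_iff.1 h)
  obtain ⟨x, L, hL⟩ := List.exists_cons_of_ne_nil this
  have hred : IsReduced (x :: L) := hL ▸ isReduced_toWord
  obtain ⟨s, hs⟩ := key L x hred
  refine ⟨x, s, ?_⟩
  rw [← mk_toWord (x := w), hL]
  exact hs

/-- ping-pong with a base point -/
theorem pingpong {G α ι : Type*} [Group G] [MulAction G α] [DecidableEq ι] (g : ι → G)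
    (Z : ι → Bool → Set α)
    (hdisj : ∀ i b j c x, x ∈ Z i b → x ∈ Z j c → i = j ∧ b = c)
    (h1 : ∀ i x, x ∉ Z i false → g i • x ∈ Z i true)
    (h2 : ∀ i x, x ∉ Z i true → (g i)⁻¹ • x ∈ Z i false)
    (x0 : α) (hx0 : ∀ i b, x0 ∉ Z i b) (h : G) (hh : h ∈ Subgroup.closure (Set.range g)) :
    h = 1 ∨ ∃ i b, h • x0 ∈ Z i b := by
  rw [← range_lift_eq_closure] at hh
  obtain ⟨w, rfl⟩ := hh
  by_cases hw : w = 1
  · left; rw [hw, _root_.map_one]
  right
  have hlet : ∀ (a : ι × Bool) (x : α), x ∉ Z a.1 (!a.2) → lift g (mk [a]) • x ∈ Z a.1 a.2 := by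
    rintro ⟨i, b⟩ x hx
    cases b
    · have : lift g (mk [(i, false)]) = (g i)⁻¹ := by simp [lift_mk]
      rw [this]
      exact h2 i x hx
    · have : lift g (mk [(i, true)]) = g i := by simp [lift_mk]
      rw [this]
      exact h1 i x hx
  have key : ∀ (L : List (ι × Bool)) (a : ι × Bool), IsReduced (a :: L) →
      lift g (mk (a :: L)) • x0 ∈ Z a.1 a.2 := by
    intro L
    induction L with
    | nil => intro a _; exact hlet a x0 (hx0 _ _)
    | cons b L ih =>
      intro a hred
      rw [isReduced_cons_cons] at hred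
      have hb := ih b hred.2
      have : mk (a :: b :: L) = mk [a] * mk (b :: L) := by rw [mul_mk]; rfl
      rw [this, _root_.map_mul, mul_smul]
      apply hlet
      intro hmem
      obtain ⟨e1, e2⟩ := hdisj _ _ _ _ _ hmem hb
      have h3 := hred.1 e1
      rw [← h3] at e2
      simp at e2
  have hne : w.toWord ≠ [] := fun h => hw (toWord_eq_nil_iff.1 h)
  obtain ⟨a, L, hL⟩ := List.exists_cons_of_ne_nil hne
  have hred : IsReduced (a :: L) := hL ▸ isReduced_toWord
  refine ⟨a.1, a.2, ?_⟩
  rw [← mk_toWord (x := w), hL]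
  exact key L a hred

lemma mem_sw_map {Y : Type*} [DecidableEq Y] (σ : X → Y) (hσ : Function.Injective σ)
    (b : FreeGroup X) (x : X) (e : Bool) (hb : b ∈ startsWith (x, e)) :
    FreeGroup.map σ b ∈ startsWith (σ x, e) := by
  have hw : (FreeGroup.map σ b).toWord = b.toWord.map (fun p => (σ p.1, p.2)) := by
    have hred : FreeGroup.IsReduced (b.toWord.map (fun p => (σ p.1, p.2))) := by
      have := isReduced_toWord (x := b)
      unfold FreeGroup.IsReduced at this ⊢
      rw [List.isChain_map]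
      exact this.imp (fun p q hpq h => hpq (hσ h))
    conv_lhs => rw [← mk_toWord (x := b)]
    rw [map.mk, toWord_mk, hred.reduce_eq]
  simp only [startsWith, Set.mem_ofPred_eq] at hb ⊢
  rw [hw, List.getElem?_map, hb]
  rfl

end PP

/-! ## The group `L = ℚ₂ ⋊ 2^ℤ` -/

/-- `ℚ₂ ⋊ 2^ℤ` -/
@[ext]
structure Aff where
  x : ℚ_[2]
  n : ℤ

namespace Aff

lemma two_ne : (2 : ℚ_[2]) ≠ 0 := two_ne_zero

lemma norm_two : ‖(2 : ℚ_[2])‖ = 2⁻¹ := by simpa using Padic.norm_p (p := 2)

noncomputable instance : Mul Aff := ⟨fun a b => ⟨a.x + 2 ^ a.n * b.x, a.n + b.n⟩⟩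

noncomputable instance : One Aff := ⟨⟨0, 0⟩⟩

noncomputable instance : Inv Aff := ⟨fun a => ⟨-(2 ^ (-a.n) * a.x), -a.n⟩⟩

@[simp] lemma mul_x (a b : Aff) : (a * b).x = a.x + 2 ^ a.n * b.x := rfl
@[simp] lemma mul_n (a b : Aff) : (a * b).n = a.n + b.n := rfl
@[simp] lemma one_x : (1 : Aff).x = 0 := rfl
@[simp] lemma one_n : (1 : Aff).n = 0 := rfl
@[simp] lemma inv_x (a : Aff) : (a⁻¹).x = -(2 ^ (-a.n) * a.x) := rfl
@[simp] lemma inv_n (a : Aff) : (a⁻¹).n = -a.n := rfl

noncomputable instance : Group Aff := Group.ofLeftAxioms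
  (by
    intro a b c
    ext
    · simp only [mul_x, mul_n]
      rw [zpow_add₀ two_ne]
      ring
    · simp [add_assoc])
  (by
    intro a
    ext <;> simp)
  (by
    intro a
    ext <;> simp)

noncomputable instance : TopologicalSpace Aff := TopologicalSpace.induced (fun a => (a.x, a.n)) inferInstance

/-- `L` as a space -/
noncomputable def homeo : Aff ≃ₜ ℚ_[2] × ℤ where
  toFun a := (a.x, a.n)
  invFun p := ⟨p.1, p.2⟩
  left_inv _ := rfl
  right_inv _ := rfl
  continuous_toFun := continuous_induced_dom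
  continuous_invFun := continuous_induced_rng.2 continuous_id

lemma continuous_x : Continuous (fun a : Aff => a.x) := continuous_fst.comp homeo.continuous

lemma continuous_n : Continuous (fun a : Aff => a.n) := continuous_snd.comp homeo.continuous

lemma continuous_pow : Continuous (fun a : Aff => (2 : ℚ_[2]) ^ a.n) :=
  (continuous_of_discreteTopology (f := fun n : ℤ => (2 : ℚ_[2]) ^ n)).comp continuous_n

lemma continuous_pow_neg : Continuous (fun a : Aff => (2 : ℚ_[2]) ^ (-a.n)) :=
  (continuous_of_discreteTopology (f := fun n : ℤ => (2 : ℚ_[2]) ^ (-n))).comp continuous_n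

instance : IsTopologicalGroup Aff where
  continuous_mul := by
    refine continuous_induced_rng.2 (Continuous.prodMk ?_ ?_)
    · exact (continuous_x.comp continuous_fst).add
        ((continuous_pow.comp continuous_fst).mul (continuous_x.comp continuous_snd))
    · exact (continuous_n.comp continuous_fst).add (continuous_n.comp continuous_snd)
  continuous_inv := by
    refine continuous_induced_rng.2 (Continuous.prodMk ?_ ?_)
    · exact (continuous_pow_neg.mul continuous_x).neg
    · exact continuous_n.neg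

instance : T2Space Aff := homeo.symm.t2Space

instance : LocallyCompactSpace Aff := homeo.isOpenEmbedding.locallyCompactSpace

/-- `U = ℤ₂` -/
noncomputable def U : Subgroup Aff where
  carrier := {a | ‖a.x‖ ≤ 1 ∧ a.n = 0}
  mul_mem' := by
    rintro a b ⟨ha, ha'⟩ ⟨hb, hb'⟩
    refine ⟨?_, by simp [ha', hb']⟩
    rw [mul_x, ha', zpow_zero, one_mul]
    exact (Padic.nonarchimedean _ _).trans (max_le ha hb)
  one_mem' := by simp
  inv_mem' := by
    rintro a ⟨ha, ha'⟩
    refine ⟨?_, by simp [ha']⟩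
    rw [inv_x, ha', neg_zero, zpow_zero, one_mul, norm_neg]
    exact ha

lemma mem_U (a : Aff) : a ∈ U ↔ ‖a.x‖ ≤ 1 ∧ a.n = 0 := Iff.rfl

lemma isOpen_U : IsOpen (U : Set Aff) := by
  have h1 : IsOpen {x : ℚ_[2] | ‖x‖ ≤ 1} := by
    have := IsUltrametricDist.isOpen_closedBall (0 : ℚ_[2]) (r := 1) one_ne_zero
    convert this using 1
    ext x
    simp
  exact (h1.preimage continuous_x).inter ((isOpen_discrete {(0 : ℤ)}).preimage continuous_n)

lemma isCompact_U : IsCompact (U : Set Aff) := by
  have h1 : IsCompact (Metric.closedBall (0 : ℚ_[2]) 1) := isCompact_closedBall _ _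
  have h2 : Continuous (fun x : ℚ_[2] => (⟨x, 0⟩ : Aff)) :=
    homeo.symm.continuous.comp (continuous_id.prodMk continuous_const)
  convert h1.image h2 using 1
  ext a
  constructor
  · rintro ⟨h, h'⟩
    exact ⟨a.x, by simpa using h, by ext <;> simp [h']⟩
  · rintro ⟨x, hx, rfl⟩
    exact ⟨by simpa using hx, rfl⟩

/-- the scaling -/
noncomputable def t : Aff := ⟨0, 1⟩

/-- the translation by `1` -/
noncomputable def u : Aff := ⟨1, 0⟩

lemma u_mem : u ∈ U := ⟨by simp [u], rfl⟩

/-- `U` and `t` generate `L`. -/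
lemma gen (K : Subgroup Aff) (hU : ∀ a ∈ U, a ∈ K) (ht : t ∈ K) (a : Aff) : a ∈ K := by
  obtain ⟨m, hm⟩ : ∃ m : ℕ, ‖(2 : ℚ_[2]) ^ (m : ℤ) * a.x‖ ≤ 1 := by
    obtain ⟨m, hm⟩ := pow_unbounded_of_one_lt ‖a.x‖ (one_lt_two)
    refine ⟨m, ?_⟩
    rw [norm_mul, zpow_natCast, norm_pow, norm_two, inv_pow,
      inv_mul_le_iff₀ (by positivity), mul_one]
    exact hm.le
  have htn : ∀ k : ℤ, t ^ k = (⟨0, k⟩ : Aff) := by
    intro k
    induction k using Int.induction_on with
    | zero => rfl
    | succ i ih => rw [zpow_add_one, ih]; ext <;> simp [t]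
    | pred i ih => rw [zpow_sub_one, ih]; ext <;> simp [t]; ring
  have h1 : a = t ^ (-(m : ℤ)) * ⟨(2 : ℚ_[2]) ^ (m : ℤ) * a.x, 0⟩ * t ^ ((m : ℤ) + a.n) := by
    rw [htn, htn]
    ext
    · simp only [mul_x, mul_zero, add_zero, zero_add]
      rw [← mul_assoc, ← zpow_add₀ two_ne]
      simp
    · simp
  rw [h1]
  exact K.mul_mem (K.mul_mem (K.zpow_mem ht _) (hU _ ⟨hm, rfl⟩)) (K.zpow_mem ht _)

end Aff

open Aff

/-! ## The set `X = L/U` -/

/-- `X = L/U` -/
abbrev XX : Type := Aff ⧸ U

noncomputable instance : DecidableEq XX := Classical.decEq _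

lemma norm_zpow_two (k : ℤ) : ‖(2 : ℚ_[2]) ^ k‖ = (2 : ℝ) ^ (-k) := by
  rw [norm_zpow, norm_two, inv_zpow, zpow_neg]

/-- the radius of a ball -/
noncomputable def rad : XX → ℤ := Quotient.lift (fun a : Aff => a.n) (by
  intro a b hab
  have h : a⁻¹ * b ∈ U := QuotientGroup.leftRel_apply.1 hab
  have := h.2
  simp at this
  change a.n = b.n
  omega)

lemma rad_mk (a : Aff) : rad (a : XX) = a.n := rfl

lemma rad_smul (l : Aff) (x : XX) : rad (l • x) = l.n + rad x := by
  induction x using QuotientGroup.induction_on with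
  | H a => rfl

/-- the ball of radius `1` around `c` -/
noncomputable def ball (c : ℚ_[2]) : XX := ((⟨c, 0⟩ : Aff) : XX)

lemma rad_ball (c : ℚ_[2]) : rad (ball c) = 0 := rfl

lemma smul_ball (c d : ℚ_[2]) : (⟨d, 0⟩ : Aff) • ball c = ball (d + c) := by
  change (((⟨d, 0⟩ : Aff) * ⟨c, 0⟩ : Aff) : XX) = _
  congr 1
  ext <;> simp

lemma ball_eq_iff (c d : ℚ_[2]) : ball c = ball d ↔ ‖d - c‖ ≤ 1 := by
  unfold ball
  rw [QuotientGroup.eq, mem_U]
  simp [sub_eq_neg_add]

lemma u_ball (c : ℚ_[2]) : u • ball c = ball c := by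
  have : u = (⟨1, 0⟩ : Aff) := rfl
  rw [this, smul_ball, ball_eq_iff]
  simp

/-- every letter is a translate of `ball 0` -/
lemma exists_smul (x : XX) : ∃ l : Aff, x = l • ball 0 := by
  induction x using QuotientGroup.induction_on with
  | H a =>
    refine ⟨a, ?_⟩
    change _ = ((a * (⟨0, 0⟩ : Aff) : Aff) : XX)
    congr 1
    ext <;> simp

/-- `L` acts faithfully on `X` -/
lemma faithful (l : Aff) (h : ∀ x : XX, l • x = x) : l = 1 := by
  have hn : l.n = 0 := by
    have := congrArg rad (h (ball 0))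
    rw [rad_smul] at this
    omega
  have hx : l.x = 0 := by
    by_contra hne
    have hpos : 0 < ‖l.x‖ := norm_pos_iff.2 hne
    obtain ⟨m, hm⟩ := pow_unbounded_of_one_lt (‖l.x‖⁻¹) (one_lt_two)
    have h1 := h (((⟨0, m⟩ : Aff)) : XX)
    have h2 : ((l * ⟨0, m⟩ : Aff) : XX) = ((⟨0, m⟩ : Aff) : XX) := h1
    rw [QuotientGroup.eq, mem_U] at h2
    have h3 := h2.1
    simp only [mul_x, inv_x, mul_n, mul_zero, add_zero, hn, zero_add, inv_n] at h3
    rw [norm_neg, norm_mul, norm_zpow_two, neg_neg, zpow_natCast] at h3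
    have h4 : 1 < (2 : ℝ) ^ m * ‖l.x‖ := by
      rwa [inv_eq_one_div, div_lt_iff₀ hpos] at hm
    linarith
  ext
  · exact hx
  · exact hn

instance : Countable XX := by
  have : Function.Surjective (fun p : ℚ × ℤ => (((⟨(p.1 : ℚ_[2]), p.2⟩ : Aff)) : XX)) := by
    intro x
    induction x using QuotientGroup.induction_on with
    | H a =>
      have hpos : (0 : ℝ) < (2 : ℝ) ^ (-a.n) := by positivity
      obtain ⟨r, hr⟩ := Padic.rat_dense 2 a.x hpos
      refine ⟨(r, a.n), ?_⟩
      simp only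
      rw [QuotientGroup.eq, mem_U]
      refine ⟨?_, by simp⟩
      have h1 : ((⟨(r : ℚ_[2]), a.n⟩ : Aff)⁻¹ * a).x = 2 ^ (-a.n) * (a.x - r) := by
        simp only [mul_x, inv_x, inv_n]
        ring
      rw [h1, norm_mul, norm_zpow_two, neg_neg]
      calc (2 : ℝ) ^ a.n * ‖a.x - r‖ ≤ (2 : ℝ) ^ a.n * 2 ^ (-a.n) :=
            mul_le_mul_of_nonneg_left hr.le (by positivity)
        _ = 1 := by rw [← zpow_add₀ two_ne_zero]; simp
  exact this.countable

/-- the markers -/
noncomputable def mark (j : ℕ) : XX := ball ((2 : ℚ_[2]) ^ (-((j : ℤ) + 1)))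

lemma mark_ne {i j : ℕ} (h : i < j) : mark i ≠ mark j := by
  intro he
  unfold mark at he
  rw [ball_eq_iff, sub_eq_add_neg, Padic.add_eq_max_of_ne, norm_neg, norm_zpow_two,
    norm_zpow_two] at he
  · have h1 := (le_max_left _ _).trans he
    have h2 : (1 : ℝ) < 2 ^ (-(-((j : ℤ) + 1))) := by
      apply one_lt_zpow₀ one_lt_two
      omega
    linarith
  · rw [norm_neg, norm_zpow_two, norm_zpow_two]
    intro hh
    have := zpow_right_injective₀ (zero_lt_two' ℝ) (by norm_num) hh
    omega

lemma mark_injective : Function.Injective mark := by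
  intro i j h
  rcases lt_trichotomy i j with hlt | heq | hgt
  · exact absurd h (mark_ne hlt)
  · exact heq
  · exact absurd h.symm (mark_ne hgt)

/-! ## The group `G = F(X) ⋊ L` -/

open FreeGroup (of startsWith)

/-- `l` acting on `F(X)` -/
noncomputable def act (l : Aff) : FreeGroup XX →* FreeGroup XX := FreeGroup.map (fun x => l • x)

lemma act_of (l : Aff) (x : XX) : act l (of x) = of (l • x) := FreeGroup.map.of

lemma act_mul (l l' : Aff) (w : FreeGroup XX) : act (l * l') w = act l (act l' w) := by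
  have : act (l * l') = (act l).comp (act l') := by
    ext x
    simp [act_of, mul_smul]
  rw [this]
  rfl

lemma act_one (w : FreeGroup XX) : act 1 w = w := by
  have : act 1 = MonoidHom.id _ := by
    ext x
    simp [act_of]
  rw [this]
  rfl

/-- `F(X) ⋊ L` -/
@[ext]
structure GG where
  w : FreeGroup XX
  l : Aff

namespace GG

noncomputable instance : Mul GG := ⟨fun a b => ⟨a.w * act a.l b.w, a.l * b.l⟩⟩

noncomputable instance : One GG := ⟨⟨1, 1⟩⟩

noncomputable instance : Inv GG := ⟨fun a => ⟨act a.l⁻¹ a.w⁻¹, a.l⁻¹⟩⟩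

@[simp] lemma mul_w (a b : GG) : (a * b).w = a.w * act a.l b.w := rfl
@[simp] lemma mul_l (a b : GG) : (a * b).l = a.l * b.l := rfl
@[simp] lemma one_w : (1 : GG).w = 1 := rfl
@[simp] lemma one_l : (1 : GG).l = 1 := rfl
@[simp] lemma inv_w (a : GG) : (a⁻¹).w = act a.l⁻¹ a.w⁻¹ := rfl
@[simp] lemma inv_l (a : GG) : (a⁻¹).l = a.l⁻¹ := rfl

noncomputable instance : Group GG := Group.ofLeftAxioms
  (by
    intro a b c
    refine GG.ext ?_ ?_
    · simp only [mul_w, mul_l, map_mul, act_mul, mul_assoc]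
    · simp only [mul_l, mul_assoc])
  (by
    intro a
    refine GG.ext ?_ ?_
    · simp only [mul_w, one_w, one_l, act_one, one_mul]
    · simp only [mul_l, one_l, one_mul])
  (by
    intro a
    refine GG.ext ?_ ?_
    · simp only [mul_w, inv_w, inv_l, one_w, ← map_mul, inv_mul_cancel, map_one]
    · simp only [mul_l, inv_l, one_l, inv_mul_cancel])

instance : TopologicalSpace (FreeGroup XX) := ⊥

instance : DiscreteTopology (FreeGroup XX) := ⟨rfl⟩

instance : DiscreteTopology XX := QuotientGroup.discreteTopology isOpen_U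

noncomputable instance : TopologicalSpace GG :=
  TopologicalSpace.induced (fun a => (a.w, a.l)) inferInstance

/-- `G` as a space -/
noncomputable def homeo : GG ≃ₜ FreeGroup XX × Aff where
  toFun a := (a.w, a.l)
  invFun p := ⟨p.1, p.2⟩
  left_inv _ := rfl
  right_inv _ := rfl
  continuous_toFun := continuous_induced_dom
  continuous_invFun := continuous_induced_rng.2 continuous_id

lemma continuous_w : Continuous (fun a : GG => a.w) := continuous_fst.comp homeo.continuous

lemma continuous_l : Continuous (fun a : GG => a.l) := continuous_snd.comp homeo.continuous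

lemma continuous_act_left (w : FreeGroup XX) : Continuous (fun l : Aff => act l w) := by
  induction w using FreeGroup.induction_on with
  | C1 => simpa using continuous_const
  | of x =>
    simp only [act_of]
    refine (continuous_of_discreteTopology (f := fun x : XX => of x)).comp ?_
    induction x using QuotientGroup.induction_on with
    | H a =>
      exact (QuotientGroup.continuous_mk).comp (continuous_id.mul continuous_const)
  | inv_of x ih =>
    simp only [map_inv]
    exact (continuous_of_discreteTopology (f := fun x : FreeGroup XX => x⁻¹)).comp ih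
  | mul x y hx hy =>
    simp only [map_mul]
    exact (continuous_of_discreteTopology
      (f := fun p : FreeGroup XX × FreeGroup XX => p.1 * p.2)).comp (hx.prodMk hy)

lemma continuous_act : Continuous (fun p : Aff × FreeGroup XX => act p.1 p.2) :=
  continuous_prod_of_discrete_right.2 continuous_act_left

instance : IsTopologicalGroup GG where
  continuous_mul := by
    refine continuous_induced_rng.2 (Continuous.prodMk ?_ ?_)
    · refine (continuous_of_discreteTopology
        (f := fun p : FreeGroup XX × FreeGroup XX => p.1 * p.2)).comp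
        ((continuous_w.comp continuous_fst).prodMk ?_)
      exact continuous_act.comp
        ((continuous_l.comp continuous_fst).prodMk (continuous_w.comp continuous_snd))
    · exact (continuous_l.comp continuous_fst).mul (continuous_l.comp continuous_snd)
  continuous_inv := by
    refine continuous_induced_rng.2 (Continuous.prodMk ?_ ?_)
    · exact continuous_act.comp (continuous_l.inv.prodMk
        ((continuous_of_discreteTopology (f := fun x : FreeGroup XX => x⁻¹)).comp continuous_w))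
    · exact continuous_l.inv

instance : T2Space GG := homeo.symm.t2Space

instance : LocallyCompactSpace GG := homeo.isOpenEmbedding.locallyCompactSpace

/-- `L ≤ G` -/
noncomputable def iL : Aff →* GG where
  toFun l := ⟨1, l⟩
  map_one' := rfl
  map_mul' a b := by
    refine GG.ext ?_ ?_
    · simp
    · simp

/-- `F(X) ≤ G` -/
noncomputable def iF : FreeGroup XX →* GG where
  toFun w := ⟨w, 1⟩
  map_one' := rfl
  map_mul' a b := by
    refine GG.ext ?_ ?_
    · simp [act_one]
    · simp

@[simp] lemma iL_w (l : Aff) : (iL l).w = 1 := rfl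
@[simp] lemma iL_l (l : Aff) : (iL l).l = l := rfl
@[simp] lemma iF_w (w : FreeGroup XX) : (iF w).w = w := rfl
@[simp] lemma iF_l (w : FreeGroup XX) : (iF w).l = 1 := rfl

/-- the projection `G → L` -/
noncomputable def pr : GG →* Aff where
  toFun a := a.l
  map_one' := rfl
  map_mul' _ _ := rfl

lemma eq_mul (a : GG) : a = iF a.w * iL a.l := by
  refine GG.ext ?_ ?_
  · simp
  · simp

lemma conj_iF (l : Aff) (w : FreeGroup XX) : iL l * iF w * (iL l)⁻¹ = iF (act l w) := by
  refine GG.ext ?_ ?_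
  · simp
  · simp

/-- `L` and one letter generate `G` -/
lemma gen (K : Subgroup GG) (hL : ∀ l, iL l ∈ K) (x : XX) (hx : iF (of x) ∈ K) : K = ⊤ := by
  have h1 : ∀ y : XX, iF (of y) ∈ K := by
    intro y
    obtain ⟨l, hl⟩ := exists_smul x
    obtain ⟨m, hm⟩ := exists_smul y
    have : y = (m * l⁻¹) • x := by rw [hl, hm, smul_smul]; simp
    rw [this, ← act_of, ← conj_iF]
    exact K.mul_mem (K.mul_mem (hL _) hx) (K.inv_mem (hL _))
  have h2 : ∀ w : FreeGroup XX, iF w ∈ K := by
    intro w
    induction w using FreeGroup.induction_on with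
    | C1 => rw [map_one]; exact K.one_mem
    | of x => exact h1 x
    | inv_of x ih => rw [map_inv]; exact K.inv_mem ih
    | mul x y hx hy => rw [map_mul]; exact K.mul_mem hx hy
  rw [eq_top_iff]
  intro a _
  rw [eq_mul a]
  exact K.mul_mem (h2 _) (hL _)

/-- `G` is compactly generated -/
lemma compactlyGenerated : CompactlyGenerated GG := by
  have hc : Continuous (fun l : Aff => iL l) :=
    homeo.symm.continuous.comp (continuous_const.prodMk continuous_id)
  refine ⟨(fun l : Aff => iL l) '' (U : Set Aff) ∪ {iL t, iF (of (ball 0))},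
    (isCompact_U.image hc).union (Set.toFinite _).isCompact, ?_⟩
  refine gen _ ?_ (ball 0) (Subgroup.subset_closure (Or.inr (Or.inr rfl)))
  intro l
  have := Aff.gen ((Subgroup.closure ((fun l : Aff => iL l) '' (U : Set Aff) ∪
    {iL t, iF (of (ball 0))})).comap iL) (fun a ha => Subgroup.subset_closure
      (Or.inl ⟨a, ha, rfl⟩)) (Subgroup.subset_closure (Or.inr (Or.inl rfl))) l
  exact this

/-- a nontrivial normal subgroup of `G` meets `F(X)` -/
lemma meets (N : Subgroup GG) (hN : N.Normal) (g : GG) (hg : g ∈ N) (hg1 : g ≠ 1) :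
    ∃ w : FreeGroup XX, w ≠ 1 ∧ iF w ∈ N := by
  by_cases hl : g.l = 1
  · refine ⟨g.w, fun hw => hg1 ?_, ?_⟩
    · exact GG.ext hw hl
    · have : iF g.w = g := by
        rw [eq_mul g, hl]; simp
      rw [this]
      exact hg
  · obtain ⟨x, hx⟩ : ∃ x : XX, g.l • x ≠ x := by
      by_contra hcon
      push Not at hcon
      exact hl (faithful _ hcon)
    refine ⟨g.w * of (g.l • x) * g.w⁻¹ * (of x)⁻¹, ?_, ?_⟩
    · intro h
      have h2 := congrArg (FreeGroup.lift (fun y : XX =>
        if y = x then Multiplicative.ofAdd (1 : ℤ) else 1)) h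
      simp [hx] at h2
    · have : iF (g.w * of (g.l • x) * g.w⁻¹ * (of x)⁻¹) = g * (iF (of x) * g⁻¹ * (iF (of x))⁻¹) := by
        refine GG.ext ?_ ?_
        · simp [act_of, act_one, ← act_mul, mul_assoc]
        · simp
      rw [this]
      exact N.mul_mem hg (hN.conj_mem _ (N.inv_mem hg) _)

end GG

/-! ## The generators of `H₀` -/

open GG

/-- nontrivial elements of `F(X)` -/
abbrev FF : Type := {w : FreeGroup XX // w ≠ 1}

instance : Countable (FreeGroup XX) := FreeGroup.toWord_injective.countable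

lemma exists_code : ∃ m : FF → ℕ, Function.Injective m ∧ ∀ w, 2 ≤ m w ∧
    ∃ f s : XX × Bool, PP w.1 f s ∧ mark (2 * m w) ≠ f.1 ∧ mark (2 * m w) ≠ s.1 ∧
      mark (2 * m w + 1) ≠ f.1 ∧ mark (2 * m w + 1) ≠ s.1 := by
  obtain ⟨e, he⟩ := exists_injective_nat FF
  have key : ∀ w : FF, ∃ i : ℕ, ∃ f s : XX × Bool, PP w.1 f s ∧
      mark (2 * (2 + Nat.pair (e w) i)) ≠ f.1 ∧ mark (2 * (2 + Nat.pair (e w) i)) ≠ s.1 ∧
      mark (2 * (2 + Nat.pair (e w) i) + 1) ≠ f.1 ∧
      mark (2 * (2 + Nat.pair (e w) i) + 1) ≠ s.1 := by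
    intro w
    obtain ⟨f, s, hfs⟩ := PP.word w.1 w.2
    have hp : ∀ i j : ℕ, Nat.pair (e w) i = Nat.pair (e w) j → i = j := fun i j h =>
      (Nat.pair_eq_pair.1 h).2
    have inj1 : Function.Injective (fun i : ℕ => mark (2 * (2 + Nat.pair (e w) i))) := by
      intro i j h
      have := mark_injective h
      exact hp i j (by omega)
    have inj2 : Function.Injective (fun i : ℕ => mark (2 * (2 + Nat.pair (e w) i) + 1)) := by
      intro i j h
      have := mark_injective h
      exact hp i j (by omega)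
    have hfin : ({f.1, s.1} : Set XX).Finite := Set.toFinite _
    have hbad := (hfin.preimage inj1.injOn).union (hfin.preimage inj2.injOn)
    obtain ⟨i, hi⟩ := hbad.exists_notMem
    simp only [Set.mem_union, Set.mem_preimage, Set.mem_insert_iff, Set.mem_singleton_iff,
      not_or] at hi
    exact ⟨i, f, s, hfs, hi.1.1, hi.1.2, hi.2.1, hi.2.2⟩
  choose i hi using key
  refine ⟨fun w => 2 + Nat.pair (e w) (i w), ?_, fun w => ⟨Nat.le_add_right _ _, hi w⟩⟩
  intro w w' h
  simp only [add_right_inj] at h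
  exact he (Nat.pair_eq_pair.1 h).1

/-- the code of `w` -/
noncomputable def code : FF → ℕ := exists_code.choose

lemma code_spec : Function.Injective code ∧ ∀ w, 2 ≤ code w ∧
    ∃ f s : XX × Bool, PP w.1 f s ∧ mark (2 * code w) ≠ f.1 ∧ mark (2 * code w) ≠ s.1 ∧
      mark (2 * code w + 1) ≠ f.1 ∧ mark (2 * code w + 1) ≠ s.1 := exists_code.choose_spec

/-- index set of the generators `h_k` -/
abbrev Idx : Type := Bool ⊕ FF

/-- the marker number of `h_k` -/
noncomputable def idx : Idx → ℕ
  | Sum.inl false => 0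
  | Sum.inl true => 1
  | Sum.inr w => code w

lemma idx_injective : Function.Injective idx := by
  intro a b h
  rcases a with (_ | _) | w <;> rcases b with (_ | _) | w'
  · rfl
  · simp [idx] at h
  · have := (code_spec.2 w').1
    simp only [idx] at h
    omega
  · simp [idx] at h
  · rfl
  · have := (code_spec.2 w').1
    simp only [idx] at h
    omega
  · have := (code_spec.2 w).1
    simp only [idx] at h
    omega
  · have := (code_spec.2 w).1
    simp only [idx] at h
    omega
  · simp only [idx] at h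
    rw [code_spec.1 h]

/-- the translation taking `mark 0` to `mark 2` -/
noncomputable def tau : Aff := ⟨(2 : ℚ_[2]) ^ (-((2 : ℕ) + 1 : ℤ)) - 2 ^ (-((0 : ℕ) + 1 : ℤ)), 0⟩

lemma tau_mark : tau • mark 0 = mark 2 := by
  unfold tau mark
  rw [smul_ball]
  congr 1
  ring

lemma tau_mark_ne : tau • mark 1 ≠ mark 2 := by
  rw [← tau_mark]
  intro h
  have := mark_injective (MulAction.injective tau h)
  simp at this

/-- the words `a_k` -/
noncomputable def aa : Idx → FreeGroup XX
  | Sum.inl false => of (mark 0) * (of (mark 1))⁻¹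
  | Sum.inl true => of (mark 2) * (of (tau • mark 1))⁻¹ * (of (mark 3))⁻¹
  | Sum.inr w => of (mark (2 * code w)) * w.1 * (of (mark (2 * code w)))⁻¹ *
      of (mark (2 * code w + 1)) * w.1 * (of (mark (2 * code w + 1)))⁻¹

lemma PP_aa (k : Idx) : PP (aa k) (mark (2 * idx k), true) (mark (2 * idx k + 1), true) := by
  rcases k with (_ | _) | w
  · refine (PP.of_pos _).comp (PP.of_neg _) ?_
    intro h
    have := mark_injective (congrArg Prod.fst h)
    simp at this
  · refine ((PP.of_pos _).comp (PP.of_neg _) ?_).comp (PP.of_neg _) ?_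
    · intro h
      exact tau_mark_ne (congrArg Prod.fst h)
    · intro h
      have := congrArg Prod.snd h
      simp at this
  · obtain ⟨h2, f, s, hfs, h3, h4, h5, h6⟩ := code_spec.2 w
    refine ((((((PP.of_pos _).comp hfs ?_).comp (PP.of_neg _) ?_).comp (PP.of_pos _) ?_).comp
      hfs ?_).comp (PP.of_neg _) ?_)
    · intro h; exact h3 (congrArg Prod.fst h).symm
    · intro h; exact h4 (congrArg Prod.fst h)
    · intro h
      have := mark_injective (congrArg Prod.fst h)
      omega
    · intro h; exact h5 (congrArg Prod.fst h).symm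
    · intro h; exact h6 (congrArg Prod.fst h)

/-- the generators of `H₀` -/
noncomputable def hh : Option Idx → GG
  | none => iL t
  | some k => iF (aa k) * iL u

/-- `H₀` -/
noncomputable def H0 : Subgroup GG := Subgroup.closure (Set.range hh)

/-- the ping-pong sets -/
def ZZ : Option Idx → Bool → Set GG
  | none, true => {g | (∃ x e, g.w ∈ startsWith (x, e) ∧ 0 < rad x) ∨ (g.w = 1 ∧ 0 < g.l.n)}
  | none, false => {g | (∃ x e, g.w ∈ startsWith (x, e) ∧ rad x < 0) ∨ (g.w = 1 ∧ g.l.n < 0)}
  | some k, true => {g | g.w ∈ startsWith (mark (2 * idx k), true)}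
  | some k, false => {g | g.w ∈ startsWith (mark (2 * idx k + 1), true)}

lemma rad_mark (j : ℕ) : rad (mark j) = 0 := rfl

lemma u_mark (j : ℕ) : u • mark j = mark j := u_ball _

lemma u_inv_mark (j : ℕ) : u⁻¹ • mark j = mark j := by
  rw [inv_smul_eq_iff, u_mark]

lemma act_sw (l : Aff) (w : FreeGroup XX) (x : XX) (e : Bool) (h : w ∈ startsWith (x, e)) :
    act l w ∈ startsWith (l • x, e) :=
  mem_sw_map _ (MulAction.injective l) w x e h

lemma hh_disj (i : Option Idx) (b : Bool) (j : Option Idx) (c : Bool) (g : GG)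
    (h1 : g ∈ ZZ i b) (h2 : g ∈ ZZ j c) : i = j ∧ b = c := by
  have none_some : ∀ (b c : Bool) (k : Idx), g ∈ ZZ none b → g ∈ ZZ (some k) c → False := by
    intro b c k h1 h2
    have h3 : ∃ j, g.w ∈ startsWith (mark j, true) := by
      cases c
      · exact ⟨_, h2⟩
      · exact ⟨_, h2⟩
    obtain ⟨j, hj⟩ := h3
    cases b
    · rcases h1 with ⟨x, e, hx, hr⟩ | ⟨hw, _⟩
      · have := sw_unique hx hj
        have hxj : x = mark j := congrArg Prod.fst this
        rw [hxj, rad_mark] at hr
        omega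
      · exact sw_ne_one hj hw
    · rcases h1 with ⟨x, e, hx, hr⟩ | ⟨hw, _⟩
      · have := sw_unique hx hj
        have hxj : x = mark j := congrArg Prod.fst this
        rw [hxj, rad_mark] at hr
        omega
      · exact sw_ne_one hj hw
  have tf : ∀ g : GG, g ∈ ZZ none true → g ∈ ZZ none false → False := by
    intro g h1 h2
    rcases h1 with ⟨x, e, hx, hr⟩ | ⟨hw, hn⟩ <;> rcases h2 with ⟨y, e', hy, hr'⟩ | ⟨hw', hn'⟩
    · have := sw_unique hx hy
      have hxy : x = y := congrArg Prod.fst this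
      rw [hxy] at hr
      omega
    · exact sw_ne_one hx hw'
    · exact sw_ne_one hy hw
    · omega
  rcases i with _ | k <;> rcases j with _ | k'
  · refine ⟨rfl, ?_⟩
    cases b <;> cases c
    · rfl
    · exact (tf g h2 h1).elim
    · exact (tf g h1 h2).elim
    · rfl
  · exact (none_some _ _ _ h1 h2).elim
  · exact (none_some _ _ _ h2 h1).elim
  · have key : ∀ (b c : Bool), g ∈ ZZ (some k) b → g ∈ ZZ (some k') c →
        2 * idx k + (if b then 0 else 1) = 2 * idx k' + (if c then 0 else 1) := by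
      intro b c h1 h2
      cases b <;> cases c <;>
      · have := mark_injective (congrArg Prod.fst (sw_unique h1 h2))
        simpa using this
    have h3 := key b c h1 h2
    have h4 : idx k = idx k' := by
      split_ifs at h3 <;> omega
    refine ⟨by rw [idx_injective h4], ?_⟩
    rw [h4] at h3
    cases b <;> cases c <;> simp at h3 ⊢

lemma hh_one (i : Option Idx) (g : GG) (hg : g ∉ ZZ i false) : hh i • g ∈ ZZ i true := by
  rcases i with _ | k
  · change iL t * g ∈ ZZ none true
    by_cases hw : g.w = 1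
    · right
      refine ⟨by simp [hw], ?_⟩
      have : ¬ g.l.n < 0 := fun h => hg (Or.inr ⟨hw, h⟩)
      simp [t]
      omega
    · left
      obtain ⟨⟨x, e⟩, hx⟩ := sw_exists hw
      have hr : ¬ rad x < 0 := fun h => hg (Or.inl ⟨x, e, hx, h⟩)
      refine ⟨t • x, e, ?_, ?_⟩
      · simpa using act_sw t _ _ _ hx
      · rw [rad_smul]
        simp [t]
        omega
  · change iF (aa k) * iL u * g ∈ ZZ (some k) true
    have h1 : (iF (aa k) * iL u * g).w = aa k * act u g.w := by simp [act_one]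
    change (iF (aa k) * iL u * g).w ∈ startsWith (mark (2 * idx k), true)
    rw [h1]
    refine (PP_aa k).1 _ (fun h => hg ?_)
    have h2 := act_sw u⁻¹ _ _ _ h
    rw [u_inv_mark, ← act_mul, inv_mul_cancel, act_one] at h2
    exact h2

lemma hh_two (i : Option Idx) (g : GG) (hg : g ∉ ZZ i true) : (hh i)⁻¹ • g ∈ ZZ i false := by
  rcases i with _ | k
  · change (iL t)⁻¹ * g ∈ ZZ none false
    by_cases hw : g.w = 1
    · right
      refine ⟨by simp [hw], ?_⟩
      have : ¬ 0 < g.l.n := fun h => hg (Or.inr ⟨hw, h⟩)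
      simp [t]
      omega
    · left
      obtain ⟨⟨x, e⟩, hx⟩ := sw_exists hw
      have hr : ¬ 0 < rad x := fun h => hg (Or.inl ⟨x, e, hx, h⟩)
      refine ⟨t⁻¹ • x, e, ?_, ?_⟩
      · simpa using act_sw t⁻¹ _ _ _ hx
      · rw [rad_smul]
        simp [t]
        omega
  · change (iF (aa k) * iL u)⁻¹ * g ∈ ZZ (some k) false
    have h1 : ((iF (aa k) * iL u)⁻¹ * g).w = act u⁻¹ ((aa k)⁻¹ * g.w) := by
      simp [act_one]
    change ((iF (aa k) * iL u)⁻¹ * g).w ∈ startsWith (mark (2 * idx k + 1), true)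
    rw [h1]
    have h2 := act_sw u⁻¹ _ _ _ ((PP_aa k).2 _ hg)
    rw [u_inv_mark] at h2
    exact h2

/-- `H₀ ∩ U = 1` -/
lemma H0_inter (g : GG) (hg : g ∈ H0) (hw : g.w = 1) (hn : g.l.n = 0) : g = 1 := by
  classical
  rcases pingpong hh ZZ hh_disj hh_one hh_two (1 : GG) (by
    intro i b
    rcases i with _ | k <;> cases b
    · rintro (⟨x, e, hx, _⟩ | ⟨_, h⟩)
      · exact one_notMem_sw _ hx
      · simp at h
    · rintro (⟨x, e, hx, _⟩ | ⟨_, h⟩)
      · exact one_notMem_sw _ hx
      · simp at h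
    · exact one_notMem_sw _
    · exact one_notMem_sw _) g hg with h | ⟨i, b, h⟩
  · exact h
  · exfalso
    rw [smul_eq_mul, mul_one] at h
    rcases i with _ | k <;> cases b
    · rcases h with ⟨x, e, hx, _⟩ | ⟨_, h⟩
      · exact sw_ne_one hx hw
      · omega
    · rcases h with ⟨x, e, hx, _⟩ | ⟨_, h⟩
      · exact sw_ne_one hx hw
      · omega
    · exact sw_ne_one h hw
    · exact sw_ne_one h hw

/-! ## Proper closed subgroups containing `H₀` -/

/-- the units of `ℤ₂ ≤ G` -/
def OO : Set GG := {g | g.w = 1 ∧ g.l.n = 0 ∧ ‖g.l.x‖ = 1}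

lemma isOpen_OO : IsOpen OO := by
  have h1 : IsOpen {x : ℚ_[2] | ‖x‖ = 1} := by
    have := IsUltrametricDist.isOpen_sphere (0 : ℚ_[2]) (r := 1) one_ne_zero
    convert this using 1
    ext x
    simp
  exact ((isOpen_discrete {(1 : FreeGroup XX)}).preimage continuous_w).inter
    ((((isOpen_discrete {(0 : ℤ)}).preimage continuous_n).preimage continuous_l).inter
      ((h1.preimage continuous_x).preimage continuous_l))

lemma iu_mem_OO : iL u ∈ OO := ⟨rfl, rfl, by simp [u]⟩

lemma H0_disj : Disjoint (H0 : Set GG) OO := by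
  rw [Set.disjoint_left]
  rintro g hg ⟨hw, hn, hx⟩
  have := H0_inter g hg hw hn
  rw [this] at hx
  simp at hx

lemma ia_mem (K : Subgroup GG) (hK : H0 ≤ K) (hL : ∀ l, iL l ∈ K) (k : Idx) :
    iF (aa k) ∈ K := by
  have h1 : iF (aa k) * iL u ∈ K := hK (Subgroup.subset_closure ⟨some k, rfl⟩)
  have h2 := K.mul_mem h1 (K.inv_mem (hL u))
  rwa [mul_inv_cancel_right] at h2

lemma top_of_L (K : Subgroup GG) (hK : H0 ≤ K) (hL : ∀ l, iL l ∈ K) : K = ⊤ := by
  have h1 := ia_mem K hK hL (Sum.inl false)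
  have h2 := ia_mem K hK hL (Sum.inl true)
  have h3 : iF (act tau (aa (Sum.inl false))) ∈ K := by
    rw [← conj_iF]
    exact K.mul_mem (K.mul_mem (hL _) h1) (K.inv_mem (hL _))
  have h4 : act tau (aa (Sum.inl false)) = of (mark 2) * (of (tau • mark 1))⁻¹ := by
    simp only [aa, map_mul, map_inv, act_of, tau_mark]
  have h5 : (iF (act tau (aa (Sum.inl false))))⁻¹ * iF (aa (Sum.inl true)) =
      (iF (of (mark 3)))⁻¹ := by
    rw [h4, ← map_inv, ← map_mul, ← map_inv]
    congr 1
    simp only [aa]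
    group
  have h6 : (iF (of (mark 3)))⁻¹ ∈ K := by
    rw [← h5]
    exact K.mul_mem (K.inv_mem h3) h2
  exact GG.gen K hL (mark 3) ((K.inv_mem_iff).1 h6)

lemma continuous_iL_x : Continuous (fun y : ℚ_[2] => iL ⟨y, 0⟩) :=
  GG.homeo.symm.continuous.comp (continuous_const.prodMk
    (Aff.homeo.symm.continuous.comp (continuous_id.prodMk continuous_const)))

lemma iL_t_mem (K : Subgroup GG) (hK : H0 ≤ K) : iL t ∈ K :=
  hK (Subgroup.subset_closure ⟨none, rfl⟩)

/-- a closed subgroup containing `H₀` and meeting `OO` is everything -/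
lemma top_of_OO (K : Subgroup GG) (hK : H0 ≤ K) (hc : IsClosed (K : Set GG)) (g : GG)
    (hg : g ∈ K) (hO : g ∈ OO) : K = ⊤ := by
  obtain ⟨hw, hn, hx⟩ := hO
  have hgl : g = iL ⟨g.l.x, 0⟩ := by
    refine GG.ext hw ?_
    exact Aff.ext rfl hn
  set x := g.l.x with hxdef
  have hx0 : x ≠ 0 := by
    intro h
    rw [h] at hx
    simp at hx
  have hmul : ∀ n : ℤ, iL ⟨(n : ℚ_[2]) * x, 0⟩ ∈ K := by
    intro n
    have : iL ⟨(n : ℚ_[2]) * x, 0⟩ = g ^ n := by
      rw [hgl, ← map_zpow]
      congr 1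
      induction n using Int.induction_on with
      | zero => simp; rfl
      | succ i ih =>
        rw [zpow_add_one, ← ih]
        ext
        · simp [add_mul]
        · simp
      | pred i ih =>
        rw [zpow_sub_one, ← ih]
        ext
        · simp [sub_mul]; ring
        · simp
    rw [this]
    exact K.zpow_mem hg n
  have hall : ∀ z : ℤ_[2], iL ⟨(z : ℚ_[2]) * x, 0⟩ ∈ K := by
    have hcl : IsClosed {z : ℤ_[2] | iL ⟨(z : ℚ_[2]) * x, 0⟩ ∈ K} := by
      have hcont : Continuous (fun z : ℤ_[2] => iL ⟨(z : ℚ_[2]) * x, 0⟩) :=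
        continuous_iL_x.comp (continuous_subtype_val.mul continuous_const)
      exact hc.preimage hcont
    have hd := PadicInt.denseRange_intCast (p := 2)
    have hsub : Set.range (Int.cast : ℤ → ℤ_[2]) ⊆ {z : ℤ_[2] | iL ⟨(z : ℚ_[2]) * x, 0⟩ ∈ K} := by
      rintro _ ⟨n, rfl⟩
      simpa using hmul n
    have := hcl.closure_subset_iff.2 hsub
    rw [hd.closure_range] at this
    intro z
    exact this (Set.mem_univ z)
  refine top_of_L K hK ?_
  intro l
  refine Aff.gen (K.comap iL) ?_ (iL_t_mem K hK) l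
  rintro a ⟨ha, ha'⟩
  have h1 : ‖a.x / x‖ ≤ 1 := by rw [norm_div, hx, div_one]; exact ha
  have h2 := hall ⟨a.x / x, h1⟩
  have h3 : (⟨(((⟨a.x / x, h1⟩ : ℤ_[2])) : ℚ_[2]) * x, 0⟩ : Aff) = a := by
    ext
    · simp [hx0]
    · exact ha'.symm
  rw [h3] at h2
  exact h2

/-- an open subgroup containing `H₀` is everything -/
lemma top_of_open (K : Subgroup GG) (hK : H0 ≤ K) (ho : IsOpen (K : Set GG)) : K = ⊤ := by
  refine top_of_L K hK ?_
  intro l
  refine Aff.gen (K.comap iL) ?_ (iL_t_mem K hK) l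
  -- `K ∩ ℚ₂` is open, and stable under division by `2`
  have h1 : IsOpen {y : ℚ_[2] | iL ⟨y, 0⟩ ∈ K} := ho.preimage continuous_iL_x
  have h0 : (0 : ℚ_[2]) ∈ {y : ℚ_[2] | iL ⟨y, 0⟩ ∈ K} := K.one_mem
  obtain ⟨ε, hε, hball⟩ := Metric.isOpen_iff.1 h1 0 h0
  rintro a ⟨ha, ha'⟩
  obtain ⟨m, hm⟩ := exists_pow_lt_of_lt_one hε (show (2⁻¹ : ℝ) < 1 by norm_num)
  have h2 : iL ⟨(2 : ℚ_[2]) ^ m * a.x, 0⟩ ∈ K := by
    apply hball
    rw [mem_ball_zero_iff, norm_mul, norm_pow, norm_two]
    calc (2⁻¹ : ℝ) ^ m * ‖a.x‖ ≤ (2⁻¹ : ℝ) ^ m * 1 :=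
          mul_le_mul_of_nonneg_left ha (by positivity)
      _ < ε := by rw [mul_one]; exact hm
  have key : ∀ (k : ℕ) (y : ℚ_[2]), iL ⟨(2 : ℚ_[2]) ^ k * y, 0⟩ ∈ K → iL ⟨y, 0⟩ ∈ K := by
    intro k
    induction k with
    | zero => intro y h; simpa using h
    | succ k ih =>
      intro y h
      apply ih
      have h3 : (iL t)⁻¹ * iL ⟨(2 : ℚ_[2]) ^ (k + 1) * y, 0⟩ * iL t =
          iL ⟨(2 : ℚ_[2]) ^ k * y, 0⟩ := by
        rw [← map_inv, ← map_mul, ← map_mul]
        congr 1
        ext
        · simp [t]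
          field_simp
          ring
        · simp [t]
      rw [← h3]
      exact K.mul_mem (K.mul_mem (K.inv_mem (iL_t_mem K hK)) h) (iL_t_mem K hK)
  have h4 := key m a.x h2
  have h5 : (⟨a.x, 0⟩ : Aff) = a := Aff.ext rfl ha'.symm
  rw [h5] at h4
  exact h4

/-- the maximal closed subgroup -/
lemma exists_H : ∃ H : Subgroup GG, H0 ≤ H ∧ IsClosed (H : Set GG) ∧ Disjoint (H : Set GG) OO ∧
    ∀ K : Subgroup GG, IsClosed (K : Set GG) → H < K → K = ⊤ := by
  let S : Set (Subgroup GG) := {K | H0 ≤ K ∧ IsClosed (K : Set GG) ∧ Disjoint (K : Set GG) OO}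
  have hS0 : H0.topologicalClosure ∈ S := by
    refine ⟨H0.le_topologicalClosure, H0.isClosed_topologicalClosure, ?_⟩
    exact H0_disj.closure_left isOpen_OO
  obtain ⟨H, -, hmax⟩ := zorn_le_nonempty₀ S (by
    intro c hc hchain y hy
    refine ⟨(sSup c).topologicalClosure, ⟨?_, ?_, ?_⟩, ?_⟩
    · exact ((hc hy).1.trans (le_sSup hy)).trans (Subgroup.le_topologicalClosure _)
    · exact Subgroup.isClosed_topologicalClosure _
    · refine Disjoint.closure_left ?_ isOpen_OO
      rw [Set.disjoint_left]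
      intro g hg hO
      obtain ⟨K, hK, hgK⟩ := (Subgroup.mem_sSup_of_directedOn ⟨y, hy⟩ hchain.directedOn).1 hg
      exact Set.disjoint_left.1 (hc hK).2.2 hgK hO
    · intro z hz
      exact (le_sSup hz).trans (Subgroup.le_topologicalClosure _)) _ hS0
  refine ⟨H, hmax.prop.1, hmax.prop.2.1, hmax.prop.2.2, ?_⟩
  intro K hKc hHK
  by_contra hne
  have hKS : K ∈ S := by
    refine ⟨hmax.prop.1.trans hHK.le, hKc, ?_⟩
    rw [Set.disjoint_left]
    intro g hg hO
    exact hne (top_of_OO K (hmax.prop.1.trans hHK.le) hKc g hg hO)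
  exact hHK.not_ge (hmax.le_of_ge hKS hHK.le)

/-! ## No minimal closed normal subgroups -/

open scoped commutatorElement

lemma pr_mem_iff (g : GG) : g ∈ pr.ker ↔ g.l = 1 := Iff.rfl

lemma isClosed_of_le (K : Subgroup GG) (hK : K ≤ pr.ker) : IsClosed (K : Set GG) := by
  have : (K : Set GG) = {g | g.w ∈ {w | iF w ∈ K}} ∩ {g | g.l ∈ ({1} : Set Aff)} := by
    ext g
    constructor
    · intro hg
      have hl : g.l = 1 := hK hg
      refine ⟨?_, hl⟩
      have : iF g.w = g := GG.ext rfl hl.symm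
      change iF g.w ∈ K
      rw [this]
      exact hg
    · rintro ⟨h1, h2⟩
      have : iF g.w = g := GG.ext rfl (Set.mem_singleton_iff.1 h2).symm
      have h3 : iF g.w ∈ K := h1
      rw [this] at h3
      exact h3
  rw [this]
  exact ((isClosed_discrete {w | iF w ∈ K}).preimage continuous_w).inter
    (isClosed_singleton.preimage continuous_l)

/-- a nontrivial element of `F(X)` does not commute with some conjugate -/
lemma not_comm (w : FreeGroup XX) (hw : w ≠ 1) :
    ∃ x : XX, w * (of x * w * (of x)⁻¹) ≠ (of x * w * (of x)⁻¹) * w := by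
  obtain ⟨f, s, hfs⟩ := PP.word w hw
  have hfin : ({f.1, s.1} : Set XX).Finite := Set.toFinite _
  obtain ⟨j, hj⟩ := (hfin.preimage mark_injective.injOn).exists_notMem
  simp only [Set.mem_preimage, Set.mem_insert_iff, Set.mem_singleton_iff, not_or] at hj
  refine ⟨mark j, fun h => ?_⟩
  set x := mark j
  have hx : PP (of x * w * (of x)⁻¹) (x, true) (x, true) := by
    refine ((PP.of_pos _).comp hfs ?_).comp (PP.of_neg _) ?_
    · intro h; exact hj.1 (congrArg Prod.fst h).symm
    · intro h; exact hj.2 (congrArg Prod.fst h)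
  have h1 : PP (w * (of x * w * (of x)⁻¹)) f (x, true) := by
    refine hfs.comp hx ?_
    intro h; exact hj.2 (congrArg Prod.fst h)
  have h2 : PP ((of x * w * (of x)⁻¹) * w) (x, true) s := by
    refine hx.comp hfs ?_
    intro h; exact hj.1 (congrArg Prod.fst h).symm
  have h3 := h1.1 1 (one_notMem_sw _)
  have h4 := h2.1 1 (one_notMem_sw _)
  rw [h] at h3
  exact hj.1 (congrArg Prod.fst (sw_unique h3 h4)).symm

/-- a nontrivial subgroup of a free group is not perfect -/
lemma not_perfect (E : Subgroup (FreeGroup XX)) (hE : E ≠ ⊥) : ¬ E ≤ ⁅E, E⁆ := by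
  intro hle
  have : IsFreeGroup E := subgroupIsFreeOfIsFree E
  have hne : Nonempty (IsFreeGroup.Generators E) := by
    by_contra hcon
    rw [not_nonempty_iff] at hcon
    apply hE
    rw [eq_bot_iff]
    intro g hg
    have : (⟨g, hg⟩ : E) = 1 := by
      have h1 : MonoidHom.id E = 1 := IsFreeGroup.ext_hom (fun a => hcon.elim a)
      have := DFunLike.congr_fun h1 (⟨g, hg⟩ : E)
      simpa using this
    simpa using congrArg Subtype.val this
  obtain ⟨a⟩ := hne
  let φ : E →* Multiplicative ℤ := IsFreeGroup.lift (fun _ => Multiplicative.ofAdd (1 : ℤ))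
  have hφ : φ (IsFreeGroup.of a) = Multiplicative.ofAdd (1 : ℤ) := by
    simp [φ]
  -- every element of `⁅E, E⁆` lies in the image of the kernel
  have hker : ⁅E, E⁆ ≤ φ.ker.map E.subtype := by
    rw [Subgroup.commutator_le]
    intro g hg g' hg'
    refine ⟨⁅(⟨g, hg⟩ : E), ⟨g', hg'⟩⁆, ?_, rfl⟩
    change φ _ = 1
    rw [map_commutatorElement]
    exact commutatorElement_eq_one_iff_mul_comm.2 (mul_comm _ _)
  obtain ⟨e, he, hea⟩ := hker (hle (IsFreeGroup.of a : E).2)
  have h1 : e = IsFreeGroup.of a := Subtype.ext hea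
  have h2 : φ e = 1 := he
  rw [h1, hφ] at h2
  have h3 : (1 : ℤ) = 0 := h2
  exact one_ne_zero h3

lemma no_minimal (M : Subgroup GG) : ¬ MinimalClosedNormal M := by
  rintro ⟨hN, -, hne, hmin⟩
  obtain ⟨g, hg, hg1⟩ : ∃ g : GG, g ∈ M ∧ g ≠ 1 := by
    by_contra hcon
    push Not at hcon
    exact hne (eq_bot_iff.2 fun g hg => hcon g hg)
  obtain ⟨w, hw, hwM⟩ := meets M hN g hg hg1
  have := hN
  have : (pr.ker : Subgroup GG).Normal := inferInstance
  set R : Subgroup GG := M ⊓ pr.ker with hR
  have : R.Normal := inferInstance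
  have hRF : ∀ v : FreeGroup XX, iF v ∈ M → iF v ∈ R := fun v hv => ⟨hv, rfl⟩
  have hNR : ⁅R, R⁆ ≤ R := Subgroup.commutator_le_left R R
  rcases hmin ⁅R, R⁆ inferInstance (isClosed_of_le _ (hNR.trans inf_le_right))
    (hNR.trans inf_le_left) with h | h
  · obtain ⟨x, hx⟩ := not_comm w hw
    apply hx
    have h1 : iF (of x * w * (of x)⁻¹) ∈ M := by
      rw [map_mul, map_mul, map_inv]
      exact hN.conj_mem _ hwM _
    have h2 : ⁅iF w, iF (of x * w * (of x)⁻¹)⁆ ∈ ⁅R, R⁆ :=
      Subgroup.commutator_mem_commutator (hRF _ hwM) (hRF _ h1)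
    rw [h, Subgroup.mem_bot, commutatorElement_eq_one_iff_mul_comm, ← map_mul, ← map_mul] at h2
    exact congrArg GG.w h2
  · -- `M` is a perfect subgroup of `F(X)`
    have hMR : M ≤ pr.ker := by rw [← h]; exact hNR.trans inf_le_right
    have hRM : R = M := inf_eq_left.2 hMR
    rw [hRM] at h
    refine not_perfect (M.comap iF) ?_ ?_
    · intro hbot
      have : w ∈ M.comap iF := hwM
      rw [hbot, Subgroup.mem_bot] at this
      exact hw this
    · intro v hv
      have hvM : iF v ∈ ⁅M, M⁆ := by rw [h]; exact hv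
      have hle : ⁅M, M⁆ ≤ (⁅M.comap iF, M.comap iF⁆).map iF := by
        rw [Subgroup.commutator_le]
        intro a ha b hb
        have ea : iF a.w = a := GG.ext rfl (hMR ha : a.l = 1).symm
        have eb : iF b.w = b := GG.ext rfl (hMR hb : b.l = 1).symm
        refine ⟨⁅a.w, b.w⁆, Subgroup.commutator_mem_commutator ?_ ?_, ?_⟩
        · change iF a.w ∈ M
          rw [ea]; exact ha
        · change iF b.w ∈ M
          rw [eb]; exact hb
        · rw [map_commutatorElement, ea, eb]
      obtain ⟨v', hv', e⟩ := hle hvM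
      have : v' = v := congrArg GG.w e
      rwa [← this]

/-- **MP_db1407_al, Q1 (affirmative).**  There are a compactly generated locally compact group
`G` and a subgroup `H` such that `G/H` is a nondiscrete faithful irreducible coset space, while
`G` has no minimal nontrivial closed normal subgroup. -/
theorem result : ∃ (G : Type) (_ : Group G) (_ : TopologicalSpace G),
    IsTopologicalGroup G ∧ T2Space G ∧ LocallyCompactSpace G ∧ CompactlyGenerated G ∧
    (∃ H : Subgroup G, IrreducibleCosetSpace H ∧ FaithfulCosetSpace H ∧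
      ¬ IsOpen (H : Set G)) ∧
    ∀ M : Subgroup G, ¬ MinimalClosedNormal M := by
  obtain ⟨H, hH0, hHc, hHO, hHmax⟩ := exists_H
  have hproper : H ≠ ⊤ := by
    intro h
    rw [h] at hHO
    exact Set.disjoint_left.1 hHO (Set.mem_univ (iL u)) iu_mem_OO
  refine ⟨GG, inferInstance, inferInstance, inferInstance, inferInstance, inferInstance,
    compactlyGenerated, ⟨H, ⟨hHc, hproper, hHmax⟩, ?_, ?_⟩, no_minimal⟩
  · intro x hx
    by_contra hx1
    -- the core
    have hcore : x ∈ H.normalCore := by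
      intro b
      have := hx b⁻¹
      simpa using this
    obtain ⟨w, hw, hwN⟩ := meets H.normalCore inferInstance x hcore hx1
    -- `a_w ∈ H`
    have hconj : ∀ v : FreeGroup XX, iF (v * w * v⁻¹) ∈ H := by
      intro v
      rw [map_mul, map_mul, map_inv]
      exact hwN (iF v)
    have ha : iF (aa (Sum.inr ⟨w, hw⟩)) ∈ H := by
      have h1 := H.mul_mem (hconj (of (mark (2 * code ⟨w, hw⟩))))
        (hconj (of (mark (2 * code ⟨w, hw⟩ + 1))))
      rw [← map_mul] at h1
      have h2 : aa (Sum.inr ⟨w, hw⟩) = of (mark (2 * code ⟨w, hw⟩)) * w *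
          (of (mark (2 * code ⟨w, hw⟩)))⁻¹ * (of (mark (2 * code ⟨w, hw⟩ + 1)) * w *
          (of (mark (2 * code ⟨w, hw⟩ + 1)))⁻¹) := by
        simp only [aa, mul_assoc]
      rw [h2]
      exact h1
    have hu : iL u ∈ H := by
      have h1 : iF (aa (Sum.inr ⟨w, hw⟩)) * iL u ∈ H :=
        hH0 (Subgroup.subset_closure ⟨some (Sum.inr ⟨w, hw⟩), rfl⟩)
      have h2 := H.mul_mem (H.inv_mem ha) h1
      rwa [inv_mul_cancel_left] at h2
    exact Set.disjoint_left.1 hHO hu iu_mem_OO
  · intro ho
    exact hproper (top_of_open H hH0 ho)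

end Pool.Agent.Results.MP_db1407_al.NoMinimalNormal
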